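import Pool.Agent.CMG.Stmts

/-!
Row OPB of squad CMG: one-parameter subgroups.
-/

set_option autoImplicit false

open Set Topology

namespace Pool.Agent.CMG.H45

open Pool.Agent.LSG Pool.Agent.CMG

/-- OPB. -/
theorem opb (chr : ChrStmt) (sur : SurStmt) (hom : HomStmt) : OpbStmt := by
  intro K _ _ _ _ _ hcomm χ hχ
  obtain ⟨h, hadd, hone⟩ := hom (K →ₜ* Circle) χ (by
    intro n hn hcon
    obtain ⟨k, hk⟩ := hχ n hn
    apply hk
    have h1 := DFunLike.congr_fun hcon k
    simpa using h1)
  have hmem : ∀ t : ℝ, (fun d : K →ₜ* Circle => Circle.exp (t * h d)) ∈ homs (K →ₜ* Circle) := by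
    intro t a b
    show Circle.exp (t * h (a * b)) = Circle.exp (t * h a) * Circle.exp (t * h b)
    rw [hadd, mul_add, Circle.exp_add]
  choose γ hγ using fun t : ℝ => sur K hcomm ⟨_, hmem t⟩
  have hγ' : ∀ (t : ℝ) (d : K →ₜ* Circle), d (γ t) = Circle.exp (t * h d) :=
    fun t d => (hγ t d).symm
  let j : K → (K →ₜ* Circle) → Circle := fun k d => d k
  have hj : Continuous j := continuous_pi fun d => d.continuous_toFun
  have hji : Function.Injective j := by
    intro a b hab
    by_contra hne
    obtain ⟨d, hd⟩ := chr K hcomm (a * b⁻¹) (by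
      intro h1
      exact hne (mul_inv_eq_one.1 h1))
    apply hd
    have h1 : d a = d b := congrFun hab d
    rw [map_mul, map_inv, h1, mul_inv_cancel]
  have hemb : IsClosedEmbedding j := hj.isClosedEmbedding hji
  refine ⟨γ, ?_, ?_, Real.pi, ?_⟩
  · rw [hemb.isEmbedding.continuous_iff]
    refine continuous_pi fun d => ?_
    have h1 : (fun t => (j ∘ γ) t d) = fun t => Circle.exp (t * h d) := funext fun t => hγ' t d
    rw [h1]
    fun_prop
  · intro s t
    apply hji
    funext d
    show d (γ (s + t)) = d (γ s * γ t)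
    rw [map_mul, hγ', hγ', hγ', add_mul, Circle.exp_add]
  · intro hcon
    have h1 := hγ' Real.pi χ
    rw [hcon, map_one, hone, mul_one] at h1
    have h2 := congrArg (fun z : Circle => (z : ℂ)) h1
    simp only [Circle.coe_one, Circle.coe_exp, Complex.exp_pi_mul_I] at h2
    norm_num at h2

end Pool.Agent.CMG.H45
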