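import Pool.Agent.CMG.Stmts

/-!
Row TRA of squad CMG: a connected torsion group of unitary matrices is trivial.
-/

set_option autoImplicit false

open Set Topology MeasureTheory
open scoped ComplexOrder

namespace Pool.Agent.CMG.H45

open Pool.Agent.LSG Pool.Agent.CMG

/-- The trace of a matrix of finite order is an algebraic integer. -/
theorem trace_integral {n : ℕ} (A : Matrix (Fin (n + 1)) (Fin (n + 1)) ℂ) (m : ℕ) (hm : 0 < m)
    (hA : A ^ m = 1) : IsIntegral ℤ A.trace := by
  rw [Matrix.trace_eq_sum_roots_charpoly]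
  refine IsIntegral.multiset_sum fun α hα => ?_
  have h1 : A.charpoly.IsRoot α := (Polynomial.mem_roots (A.charpoly_monic.ne_zero)).1 hα
  have h2 : α ∈ spectrum ℂ A := Matrix.mem_spectrum_of_isRoot_charpoly h1
  have h3 : α ^ m ∈ spectrum ℂ (A ^ m) := spectrum.pow_mem_pow A m h2
  rw [hA, spectrum.one_eq, Set.mem_singleton_iff] at h3
  refine ⟨Polynomial.X ^ m - Polynomial.C 1, Polynomial.monic_X_pow_sub_C 1 hm.ne', ?_⟩
  rw [Polynomial.eval₂_sub, Polynomial.eval₂_pow, Polynomial.eval₂_X, Polynomial.eval₂_C, h3,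
    map_one, sub_self]

/-- A unitary matrix with trace `n` is the identity. -/
theorem eq_one_of_trace {n : ℕ} (U : Matrix.unitaryGroup (Fin n) ℂ)
    (h : (U : Matrix (Fin n) (Fin n) ℂ).trace = (1 : Matrix (Fin n) (Fin n) ℂ).trace) : U = 1 := by
  have h1 : (U : Matrix (Fin n) (Fin n) ℂ) * star (U : Matrix (Fin n) (Fin n) ℂ) = 1 :=
    Matrix.mem_unitaryGroup_iff.1 U.2
  have h2 : ((U : Matrix (Fin n) (Fin n) ℂ) - 1) *
      Matrix.conjTranspose ((U : Matrix (Fin n) (Fin n) ℂ) - 1) =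
      1 - (U : Matrix (Fin n) (Fin n) ℂ) - (Matrix.conjTranspose (U : Matrix (Fin n) (Fin n) ℂ) -
        1) := by
    rw [Matrix.conjTranspose_sub, Matrix.conjTranspose_one, mul_sub, sub_mul, sub_mul, mul_one,
      one_mul, one_mul, ← Matrix.star_eq_conjTranspose, h1]
    abel
  have h3 : (((U : Matrix (Fin n) (Fin n) ℂ) - 1) *
      Matrix.conjTranspose ((U : Matrix (Fin n) (Fin n) ℂ) - 1)).trace = 0 := by
    rw [h2, Matrix.trace_sub, Matrix.trace_sub, Matrix.trace_sub, Matrix.trace_conjTranspose, h,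
      Matrix.trace_one]
    simp
  have h4 := Matrix.trace_mul_conjTranspose_self_eq_zero_iff.1 h3
  exact Subtype.ext (sub_eq_zero.1 h4)

/-- TRA. -/
theorem tra : TraStmt := by
  intro K _ _ _ n ρ hρ htor g
  rcases n with _ | n
  · exact Subsingleton.elim _ _
  apply eq_one_of_trace
  have hc : Continuous fun g => (ρ g : Matrix (Fin (n + 1)) (Fin (n + 1)) ℂ).trace :=
    (continuous_subtype_val.comp hρ).matrix_trace
  have hcount : (Set.range fun g => (ρ g : Matrix (Fin (n + 1)) (Fin (n + 1)) ℂ).trace).Countable := by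
    refine (Algebraic.countable ℤ ℂ).mono ?_
    rintro _ ⟨x, rfl⟩
    obtain ⟨m, hm, hx⟩ := htor x
    refine (trace_integral _ m hm ?_).isAlgebraic
    have := congrArg (fun U : Matrix.unitaryGroup (Fin (n + 1)) ℂ =>
      (U : Matrix (Fin (n + 1)) (Fin (n + 1)) ℂ)) hx
    simpa using this
  have hpre : IsPreconnected
      (Set.range fun g => (ρ g : Matrix (Fin (n + 1)) (Fin (n + 1)) ℂ).trace) :=
    isPreconnected_range hc
  have hsub := hcount.isTotallyDisconnected _ subset_rfl hpre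
  have h1 := hsub ⟨g, rfl⟩ ⟨1, rfl⟩
  have h2 : (ρ g : Matrix (Fin (n + 1)) (Fin (n + 1)) ℂ).trace =
      (ρ 1 : Matrix (Fin (n + 1)) (Fin (n + 1)) ℂ).trace := h1
  rw [h2, map_one]
  rfl

end Pool.Agent.CMG.H45
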